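import Pool.Agent.Q296.TC.Final

/-!
# MP_9c5a5c_co: optimal partitions with the greatest number of parts

Every part has diameter at most three; for triangle-free graphs, graphs without induced banner
(for example claw-free or chordal graphs), graphs of maximum degree at most six and graphs in
which every vertex has at most seven non-neighbours the partition is a 2-club clustering.
-/

namespace Pool.Agent.Results.MP_9c5a5c_co.FinestOptimalPartitions

open Finset Pool.Agent.Q296.TC

/-- The partition is a 2-club clustering: every part induces a connected graph of diameter at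
most two. -/
def IsTwoClubClustering {V : Type*} [Fintype V] [DecidableEq V] (G : SimpleGraph V)
    (P : Finpartition (univ : Finset V)) : Prop :=
  ∀ S ∈ P.parts, (G.induce (S : Set V)).Connected ∧ ∀ x y, (G.induce (S : Set V)).dist x y ≤ 2

/-- The graph is complete bipartite, with two nonempty classes `K` and `Kᶜ`. -/
def IsCompleteBipartite {W : Type*} (H : SimpleGraph W) : Prop :=
  ∃ K : Set W, K.Nonempty ∧ Kᶜ.Nonempty ∧ ∀ x y, H.Adj x y ↔ (x ∈ K ↔ y ∉ K)

/-- An optimal partition with the greatest number of parts among all optimal partitions. -/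
def IsFinestOptimal {V : Type*} [Fintype V] [DecidableEq V] (G : SimpleGraph V)
    (P : Finpartition (univ : Finset V)) : Prop :=
  IsOptimal G P ∧
    ∀ Q : Finpartition (univ : Finset V), IsOptimal G Q → Q.parts.card ≤ P.parts.card

theorem result {V : Type*} [Fintype V] [DecidableEq V] (G : SimpleGraph V) :
    (∃ P : Finpartition (univ : Finset V), IsFinestOptimal G P) ∧
    ∀ P : Finpartition (univ : Finset V), IsFinestOptimal G P →
      (∀ S ∈ P.parts,
        (G.induce (S : Set V)).Connected ∧
        (∀ x y, (G.induce (S : Set V)).dist x y ≤ 3) ∧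
        (∀ x y, (G.induce (S : Set V)).dist x y = 3 → 11 ≤ S.card ∧
          (S.card + 2 < 2 * ((G.induce (S : Set V)).neighborSet x).ncard ∨
            S.card + 2 < 2 * ((G.induce (S : Set V)).neighborSet y).ncard)) ∧
        (¬ ∃ M : ((G.induce (S : Set V))ᶜ).Subgraph, M.IsPerfectMatching) ∧
        ((G.induce (S : Set V)).CliqueFree 3 →
          S.card = 1 ∨ IsCompleteBipartite (G.induce (S : Set V))) ∧
        (BannerFree (G.induce (S : Set V)) → ∀ x y, (G.induce (S : Set V)).dist x y ≤ 2)) ∧
      (G.CliqueFree 3 → IsTwoClubClustering G P) ∧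
      (BannerFree G → IsTwoClubClustering G P) ∧
      ((∀ v, (G.neighborSet v).ncard ≤ 6) → IsTwoClubClustering G P) ∧
      ((∀ v, (Gᶜ.neighborSet v).ncard ≤ 7) → IsTwoClubClustering G P) := by
  classical
  refine ⟨exists_opt G, ?_⟩
  rintro P ⟨hopt, hmax⟩
  have huo : ∀ S ∈ P.parts, UO (G.induce (S : Set V)) := fun S hS => uo_of_opt G hopt hmax hS
  have hne : ∀ S ∈ P.parts, Nonempty ((S : Set V) : Type _) := by
    intro S hS
    obtain ⟨x, hx⟩ := P.nonempty_of_mem_parts hS
    exact ⟨⟨x, hx⟩⟩
  have hcard : ∀ S : Finset V, Fintype.card ((S : Set V) : Type _) = S.card := by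
    intro S; simp
  have hcon : ∀ S ∈ P.parts, (G.induce (S : Set V)).Connected := by
    intro S hS
    haveI := hne S hS
    exact (huo S hS).connected
  have htf : ∀ S ∈ P.parts, (G.induce (S : Set V)).CliqueFree 3 →
      S.card = 1 ∨ CB (G.induce (S : Set V)) := by
    intro S hS hcf
    by_cases h1 : S.card = 1
    · exact Or.inl h1
    · right
      have h0 := Finset.card_pos.mpr (P.nonempty_of_mem_parts hS)
      exact (huo S hS).completeBipartite (TF.of_cliqueFree hcf) (by rw [hcard]; omega)
  refine ⟨?_, ?_, ?_, ?_, ?_⟩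
  · intro S hS
    haveI := hne S hS
    refine ⟨hcon S hS, (huo S hS).dist_le_three, ?_, (huo S hS).no_perfect, ?_,
      fun hb => (huo S hS).dist_le_two_of_banner hb⟩
    · intro x y hxy
      have h1 := (huo S hS).degree_far (u := x) (v := y) (by omega)
      have h2 := (huo S hS).eleven (u := x) (v := y) (by omega)
      rw [hcard] at h1 h2
      exact ⟨h2, h1⟩
    · intro hcf
      refine (htf S hS hcf).imp id ?_
      rintro ⟨K, ⟨x, hx⟩, ⟨y, hy⟩, hK⟩
      exact ⟨{z | K z}, ⟨x, hx⟩, ⟨y, hy⟩, fun a b => hK a b⟩
  · intro hG S hS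
    refine ⟨hcon S hS, ?_⟩
    have hcf : (G.induce (S : Set V)).CliqueFree 3 :=
      hG.comap (SimpleGraph.Embedding.induce (S : Set V)).toCopy.isContained
    intro x y
    rcases htf S hS hcf with h1 | h1
    · have : x = y := by
        have hs : Subsingleton ((S : Set V) : Type _) := by
          rw [← Fintype.card_le_one_iff_subsingleton, hcard]; omega
        exact Subsingleton.elim _ _
      subst this; simp
    · exact h1.dist_le_two x y
  · intro hG S hS
    refine ⟨hcon S hS, fun x y => (huo S hS).dist_le_two_of_banner ?_ x y⟩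
    intro a b c d e h1 h2 h3 h4 h5 n1 n2 n3 n4 n5
    exact hG a b c d e h1 h2 h3 h4 h5 (fun q => n1 (Subtype.ext q)) (fun q => n2 (Subtype.ext q))
      (fun q => n3 (Subtype.ext q)) (fun q => n4 (Subtype.ext q)) (fun q => n5 (Subtype.ext q))
  · intro hG S hS
    refine ⟨hcon S hS, fun x y => ?_⟩
    by_contra hd
    push Not at hd
    have hdeg : ∀ z : ((S : Set V) : Type _),
        ((G.induce (S : Set V)).neighborSet z).ncard ≤ 6 := by
      intro z
      refine le_trans ?_ (hG (z : V))
      have : ((G.induce (S : Set V)).neighborSet z).ncard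
          = (Subtype.val '' ((G.induce (S : Set V)).neighborSet z)).ncard :=
        (Set.ncard_image_of_injective _ Subtype.val_injective).symm
      rw [this]
      refine Set.ncard_le_ncard ?_ (Set.toFinite _)
      rintro _ ⟨w, hw, rfl⟩
      exact hw
    rcases (huo S hS).nonneighbours_far (u := x) (v := y) hd with h | h
    · have := hdeg x; omega
    · have := hdeg y; omega
  · intro hG S hS
    refine ⟨hcon S hS, fun x y => ?_⟩
    by_contra hd
    push Not at hd
    have hdeg : ∀ z : ((S : Set V) : Type _),
        (((G.induce (S : Set V))ᶜ).neighborSet z).ncard ≤ 7 := by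
      intro z
      refine le_trans ?_ (hG (z : V))
      have : (((G.induce (S : Set V))ᶜ).neighborSet z).ncard
          = (Subtype.val '' (((G.induce (S : Set V))ᶜ).neighborSet z)).ncard :=
        (Set.ncard_image_of_injective _ Subtype.val_injective).symm
      rw [this]
      refine Set.ncard_le_ncard ?_ (Set.toFinite _)
      rintro _ ⟨w, hw, rfl⟩
      rw [SimpleGraph.mem_neighborSet, SimpleGraph.compl_adj] at hw ⊢
      exact ⟨fun q => hw.1 (Subtype.ext q), hw.2⟩
    rcases (huo S hS).nonneighbours_far (u := x) (v := y) hd with h | h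
    · have := hdeg y; omega
    · have := hdeg x; omega

end Pool.Agent.Results.MP_9c5a5c_co.FinestOptimalPartitions
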